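import Pool.Agent.R719.LF.Main
import Pool.Agent.R719.DD.Sharp

set_option autoImplicit false
set_option linter.unusedSectionVars false

/-! The constant in the dominance condition for quadratic forms is sharp. -/

namespace Pool.Agent.R719.LF

open Matrix TH57.Thr TH6.LF TH6.CX Pool.Agent.Y75.Th Pool.Agent.Y35.KC.TTm Pool.Agent.R719.DD

variable {Γ : Type} [Group Γ] {κ μ ν : Type} [Fintype κ] [DecidableEq κ] [Fintype μ]
  [DecidableEq μ] [Fintype ν] [DecidableEq ν]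

theorem l1_zs {ε : ℤ} (hε : ε = 1 ∨ ε = -1) (x : MonoidAlgebra ℤ Γ) : l1 (ε • x) = l1 x := by
  rcases hε with rfl | rfl
  · rw [one_smul]
  · rw [neg_smul, one_smul, l1_neg]

/-- the antidiagonal matrix -/
noncomputable def ant (ε : ℤ) (X : Matrix μ ν (MonoidAlgebra ℤ Γ)) :
    Matrix (μ ⊕ μ) (ν ⊕ ν) (MonoidAlgebra ℤ Γ) := fromBlocks 0 X (ε • X) 0

theorem row_ant {ε : ℤ} (hε : ε = 1 ∨ ε = -1) (X : Matrix μ ν (MonoidAlgebra ℤ Γ)) (R : ℝ)
    (h : ∀ k, ∑ p, (l1 (X k p) : ℝ) ≤ R) (a : μ ⊕ μ) :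
    ∑ p : ν ⊕ ν, (l1 (ant ε X a p) : ℝ) ≤ R := by
  rw [Fintype.sum_sum_type]
  have h0 : l1 (0 : MonoidAlgebra ℤ Γ) = 0 := (l1_zero_iff _).2 rfl
  rcases a with k | k
  · have e1 : ∀ p, l1 (ant ε X (Sum.inl k) (Sum.inl p)) = 0 := fun p => h0
    have e2 : ∀ p, l1 (ant ε X (Sum.inl k) (Sum.inr p)) = l1 (X k p) := fun p => rfl
    simp only [e1, e2, Nat.cast_zero, Finset.sum_const_zero, zero_add]
    exact h k
  · have e1 : ∀ p, l1 (ant ε X (Sum.inr k) (Sum.inr p)) = 0 := fun p => h0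
    have e2 : ∀ p, l1 (ant ε X (Sum.inr k) (Sum.inl p)) = l1 (X k p) := fun p => l1_zs hε _
    simp only [e1, e2, Nat.cast_zero, Finset.sum_const_zero, add_zero]
    exact h k

theorem coeff_ant {ε : ℤ} (hε : ε = 1 ∨ ε = -1) (X : Matrix μ μ (MonoidAlgebra ℤ Γ)) (N : ℕ)
    (h : ∀ k, (X k k).coeff 1 = N) (a : μ ⊕ μ) :
    |((ant ε X a a.swap).coeff 1 : ℝ)| = N := by
  rcases a with k | k
  · have e1 : (ant ε X (Sum.inl k) (Sum.inl k).swap).coeff 1 = N := h k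
    rw [e1]
    simp
  · have e1 : (ant ε X (Sum.inr k) (Sum.inr k).swap).coeff 1 = ε * N := by
      change (ε • X k k).coeff 1 = _
      rw [coeff_zs, h]
    rw [e1]
    rcases hε with rfl | rfl <;> simp

/-- hyperbolic planes -/
noncomputable def hyp (Γ : Type) [Group Γ] (ν : Type) [DecidableEq ν] :
    Matrix (ν ⊕ ν) (ν ⊕ ν) (MonoidAlgebra ℤ Γ) := fromBlocks 0 1 0 0

theorem pm2 (Γ : Type) [Group Γ] (μ : Type) [Fintype μ] [DecidableEq μ] (N : ℕ) :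
    ∃ E : (Matrix ((μ ⊕ μ) ⊕ (μ × Fin N ⊕ μ × Fin N)) ((μ ⊕ μ) ⊕ (μ × Fin N ⊕ μ × Fin N))
      (MonoidAlgebra ℤ Γ))ˣ,
      E.val = fromBlocks 1 (fromBlocks (xm Γ μ N) 0 0 (xm Γ μ N)) 0 1 ∧ TT (TU Γ) E := by
  let X : Matrix (μ ⊕ μ) (μ × Fin N ⊕ μ × Fin N) (MonoidAlgebra ℤ Γ) :=
    fromBlocks (xm Γ μ N) 0 0 (xm Γ μ N)
  let Z : Matrix ((μ ⊕ μ) ⊕ (μ × Fin N ⊕ μ × Fin N)) ((μ ⊕ μ) ⊕ (μ × Fin N ⊕ μ × Fin N))
    (MonoidAlgebra ℤ Γ) := fromBlocks 1 X 0 1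
  obtain ⟨E, hE1, hE2⟩ := El_unit (R := MonoidAlgebra ℤ Γ) Z (by
    have h3 : Z = 1 + fromBlocks 0 X 0 0 := by
      rw [← fromBlocks_one, fromBlocks_add]; simp [Z]
    rw [h3]
    exact el_unip (Finset.univ.filter fun v : (μ ⊕ μ) ⊕ (μ × Fin N ⊕ μ × Fin N) => v.isLeft) _ (by
      rintro (i | i) (j | j) h <;> simp at h ⊢))
  exact ⟨E, hE1, hE2 _⟩

/-- the stabilised form in the new basis -/
noncomputable def dform (ψ : Matrix (μ ⊕ μ) (μ ⊕ μ) (MonoidAlgebra ℤ Γ)) (N : ℕ) :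
    Matrix ((μ ⊕ μ) ⊕ (μ × Fin N ⊕ μ × Fin N)) ((μ ⊕ μ) ⊕ (μ × Fin N ⊕ μ × Fin N))
      (MonoidAlgebra ℤ Γ) :=
  fromBlocks (ψ + fromBlocks 0 (N : Matrix μ μ (MonoidAlgebra ℤ Γ)) 0 0)
    (fromBlocks 0 (xm Γ μ N) 0 0) (fromBlocks 0 (adj (xm Γ μ N)) 0 0) (hyp Γ (μ × Fin N))

theorem iso_dform (ε : ℤ) (ψ : Matrix (μ ⊕ μ) (μ ⊕ μ) (MonoidAlgebra ℤ Γ)) (N : ℕ) :
    Iso ε (fromBlocks ψ 0 0 (hyp Γ (μ × Fin N))) (dform ψ N) := by
  obtain ⟨E, hE1, hE2⟩ := pm2 Γ μ N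
  refine ⟨E, 0, hE2, ?_⟩
  rw [hE1, adj_zero, smul_zero, sub_zero, add_zero, adj_fromBlocks, adj_fromBlocks, adj_one,
    adj_zero, adj_one, adj_zero, fromBlocks_multiply, fromBlocks_multiply]
  simp only [Matrix.one_mul, Matrix.mul_one, Matrix.zero_mul, Matrix.mul_zero, add_zero, zero_add]
  unfold hyp dform
  rw [fromBlocks_multiply, fromBlocks_multiply]
  simp only [Matrix.one_mul, Matrix.mul_one, Matrix.zero_mul, Matrix.mul_zero, add_zero, zero_add]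
  rw [fromBlocks_multiply]
  simp only [Matrix.one_mul, Matrix.mul_one, Matrix.zero_mul, Matrix.mul_zero, add_zero, zero_add]
  rw [xm_gram]
  congr 1

theorem adj_nat (N : ℕ) : adj (N : Matrix μ μ (MonoidAlgebra ℤ Γ)) = N := by
  rw [← xm_gram, adj_mul, adj_adj]

theorem lam_dform (ε : ℤ) (ψ : Matrix (μ ⊕ μ) (μ ⊕ μ) (MonoidAlgebra ℤ Γ)) (N : ℕ) :
    lam ε (dform ψ N) = fromBlocks (lam ε ψ + ant ε (N : Matrix μ μ (MonoidAlgebra ℤ Γ)))
      (ant ε (xm Γ μ N)) (ant ε (adj (xm Γ μ N))) (ant ε 1) := by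
  unfold lam dform hyp ant
  rw [adj_fromBlocks, adj_fromBlocks, adj_fromBlocks, adj_fromBlocks, fromBlocks_smul,
    fromBlocks_add, adj_add, adj_fromBlocks, adj_nat, adj_adj]
  simp only [adj_zero, adj_one, smul_add, fromBlocks_smul, smul_zero, fromBlocks_add, zero_add,
    add_zero]
  congr 1
  rw [add_add_add_comm, fromBlocks_add]
  simp

theorem coeff_nat (N : ℕ) : ((N : MonoidAlgebra ℤ Γ)).coeff 1 = N := by
  rw [← nsmul_one, MonoidAlgebra.coeff_smul]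
  simp [MonoidAlgebra.one_def]

/-- dominance with a constant -/
def CDom (c : ℝ) (ε : ℤ) (ψ : Matrix κ κ (MonoidAlgebra ℤ Γ)) : Prop :=
  ∃ (σ : κ → κ) (γ : κ → Γ), (∀ i, σ (σ i) = i) ∧ (∀ i, γ (σ i) = (γ i)⁻¹) ∧
    ∀ i, ∑ j, (l1 (lam ε ψ i j) : ℝ) - |((lam ε ψ i (σ i)).coeff (γ i) : ℝ)|
      ≤ c * |((lam ε ψ i (σ i)).coeff (γ i) : ℝ)|

theorem sharp {ε : ℤ} (hε : ε = 1 ∨ ε = -1) (c : ℝ) (hc : 1 < c)
    (ψ : Matrix (μ ⊕ μ) (μ ⊕ μ) (MonoidAlgebra ℤ Γ)) :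
    ∃ N₁ : ℕ, ∀ N : ℕ, N₁ ≤ N → CDom c ε (dform ψ N) := by
  classical
  set M : ℕ := ∑ i, ∑ j, l1 (lam ε ψ i j) with hM
  obtain ⟨N0, hN0⟩ := exists_nat_ge ((2 + c) * M / (c - 1))
  refine ⟨N0 + M, fun N hN => ?_⟩
  have hNR : (N0 : ℝ) + M ≤ N := by exact_mod_cast hN
  have hM0 : (0:ℝ) ≤ M := Nat.cast_nonneg _
  have hNM : (M : ℝ) ≤ N := by have : (0:ℝ) ≤ N0 := Nat.cast_nonneg _; linarith
  have hN1 : (2 + c) * M ≤ (c - 1) * N := by
    rw [div_le_iff₀ (by linarith)] at hN0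
    have h1 : (N0 : ℝ) ≤ N := by linarith
    nlinarith
  refine ⟨Sum.map Sum.swap Sum.swap, fun _ => 1, ?_, fun _ => inv_one.symm, ?_⟩
  · rintro ((i | i) | (i | i)) <;> rfl
  rintro (a | p)
  · rw [lam_dform, Fintype.sum_sum_type]
    simp only [fromBlocks_apply₁₁, fromBlocks_apply₁₂, Sum.map_inl]
    have e1 : ∑ x, (l1 (ant ε (xm Γ μ N) a x) : ℝ) ≤ N := by
      refine row_ant hε _ _ (fun i => ?_) a
      rw [Fintype.sum_prod_type, Finset.sum_eq_single i]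
      · simp [xm, l1_one]
      · intro b _ hb
        refine Finset.sum_eq_zero fun l _ => ?_
        simp only [xm, Matrix.of_apply, if_neg (Ne.symm hb)]
        rw [(l1_zero_iff _).2 rfl]; norm_num
      · simp
    have e2 : ∑ x, (l1 (ant ε (N : Matrix μ μ (MonoidAlgebra ℤ Γ)) a x) : ℝ) ≤ N := by
      refine row_ant hε _ _ (fun i => ?_) a
      rw [Finset.sum_eq_single i]
      · rw [Matrix.natCast_apply, if_pos rfl]
        exact_mod_cast l1_nat (Γ := Γ) N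
      · intro b _ hb
        rw [Matrix.natCast_apply, if_neg (Ne.symm hb), Nat.cast_zero, (l1_zero_iff _).2 rfl]
        norm_num
      · simp
    have e3 : ∑ x, (l1 (lam ε ψ a x) : ℝ) ≤ M := by
      rw [hM]; push_cast
      exact Finset.single_le_sum (f := fun i => ∑ x, (l1 (lam ε ψ i x) : ℝ))
        (fun i _ => Finset.sum_nonneg fun x _ => Nat.cast_nonneg _) (Finset.mem_univ a)
    have e4 : ∑ x, (l1 ((lam ε ψ + ant ε (N : Matrix μ μ (MonoidAlgebra ℤ Γ))) a x) : ℝ)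
        ≤ M + N := by
      refine le_trans (Finset.sum_le_sum (g := fun x => (l1 (lam ε ψ a x) : ℝ)
        + l1 (ant ε (N : Matrix μ μ (MonoidAlgebra ℤ Γ)) a x)) fun x _ => ?_) ?_
      · rw [Matrix.add_apply]
        exact_mod_cast l1_add_le _ _
      · rw [Finset.sum_add_distrib]
        linarith
    have e5 : |((lam ε ψ a a.swap).coeff 1 : ℝ)| ≤ M := by
      have h1 := coeff_le_l1 (lam ε ψ a a.swap) 1
      have h2 : ((|(lam ε ψ a a.swap).coeff 1| : ℤ) : ℝ)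
          ≤ ((l1 (lam ε ψ a a.swap) : ℤ) : ℝ) := by exact_mod_cast h1
      rw [Int.cast_abs] at h2
      refine h2.trans (le_trans ?_ e3)
      have h3 := Finset.single_le_sum (f := fun x => (l1 (lam ε ψ a x) : ℝ))
        (fun x _ => Nat.cast_nonneg _) (Finset.mem_univ a.swap)
      exact_mod_cast h3
    have e6 := coeff_ant hε (N : Matrix μ μ (MonoidAlgebra ℤ Γ)) N (fun k => by
      rw [Matrix.natCast_apply, if_pos rfl, coeff_nat]) a
    have e7 : (N : ℝ) - M ≤ |(((lam ε ψ + ant ε (N : Matrix μ μ (MonoidAlgebra ℤ Γ)))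
        a a.swap).coeff 1 : ℝ)| := by
      rw [Matrix.add_apply, MonoidAlgebra.coeff_add, Finsupp.add_apply, Int.cast_add]
      have h1 := abs_sub_abs_le_abs_sub
        ((ant ε (N : Matrix μ μ (MonoidAlgebra ℤ Γ)) a a.swap).coeff 1 : ℝ)
        (-((lam ε ψ a a.swap).coeff 1 : ℝ))
      rw [abs_neg, e6, sub_neg_eq_add, add_comm ((ant ε _ a a.swap).coeff 1 : ℝ)] at h1
      linarith
    have e8 : (1 + c) * ((N : ℝ) - M) ≤ (1 + c) * |(((lam ε ψ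
        + ant ε (N : Matrix μ μ (MonoidAlgebra ℤ Γ))) a a.swap).coeff 1 : ℝ)| :=
      mul_le_mul_of_nonneg_left e7 (by linarith)
    nlinarith
  · rw [lam_dform, Fintype.sum_sum_type]
    simp only [fromBlocks_apply₂₁, fromBlocks_apply₂₂, Sum.map_inr]
    have e1 : ∑ x, (l1 (ant ε (adj (xm Γ μ N)) p x) : ℝ) ≤ 1 := by
      refine row_ant hε _ _ (fun i => ?_) p
      rw [Finset.sum_eq_single i.1]
      · rw [adj_apply, l1_bar]; simp [xm, l1_one]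
      · intro b _ hb
        rw [adj_apply, l1_bar]
        simp only [xm, Matrix.of_apply, if_neg hb]
        rw [(l1_zero_iff _).2 rfl]; norm_num
      · simp
    have e2 : ∑ x, (l1 (ant ε (1 : Matrix (μ × Fin N) (μ × Fin N) (MonoidAlgebra ℤ Γ)) p x) : ℝ)
        ≤ 1 := by
      refine row_ant hε _ _ (fun i => ?_) p
      rw [Finset.sum_eq_single i]
      · rw [Matrix.one_apply_eq, l1_one]; norm_num
      · intro b _ hb
        rw [Matrix.one_apply_ne (Ne.symm hb), (l1_zero_iff _).2 rfl]; norm_num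
      · simp
    have e3 := coeff_ant hε (1 : Matrix (μ × Fin N) (μ × Fin N) (MonoidAlgebra ℤ Γ)) 1 (fun k => by
      rw [Matrix.one_apply_eq, MonoidAlgebra.one_def, MonoidAlgebra.coeff_single]
      simp) p
    rw [e3]
    push_cast
    linarith

end Pool.Agent.R719.LF
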