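import Pool.Agent.R719.DD.Elim

set_option autoImplicit false
set_option linter.unusedSectionVars false

/-! Simple isometries of quadratic forms over integral group rings. -/

namespace Pool.Agent.R719.LF

open Matrix TH57.Thr TH6.LF TH6.CX Pool.Agent.Y75.Th Pool.Agent.Y35.KC.TTm Pool.Agent.R719.DD

variable {Γ : Type} [Group Γ] {κ μ ι : Type} [Fintype κ] [DecidableEq κ] [Fintype μ]
  [DecidableEq μ] [Fintype ι] [DecidableEq ι]

/-- simple isometry of the quadratic forms given by two matrices -/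
def Iso (ε : ℤ) (ψ ψ' : Matrix κ κ (MonoidAlgebra ℤ Γ)) : Prop :=
  ∃ (E : (Matrix κ κ (MonoidAlgebra ℤ Γ))ˣ) (χ : Matrix κ κ (MonoidAlgebra ℤ Γ)),
    TT (TU Γ) E ∧ E.val * ψ * adj E.val = ψ' + (χ - ε • adj χ)

theorem Iso.refl (ε : ℤ) (ψ : Matrix κ κ (MonoidAlgebra ℤ Γ)) : Iso ε ψ ψ :=
  ⟨1, 0, TT_one _, by rw [Units.val_one, adj_one, adj_zero]; simp⟩

theorem Iso.trans {ε : ℤ} {ψ ψ' ψ'' : Matrix κ κ (MonoidAlgebra ℤ Γ)} (h : Iso ε ψ ψ')
    (h' : Iso ε ψ' ψ'') : Iso ε ψ ψ'' := by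
  obtain ⟨E, χ, hE, h1⟩ := h
  obtain ⟨F, ξ, hF, h2⟩ := h'
  refine ⟨F * E, F.val * χ * adj F.val + ξ, TT_mul _ _ _ hF hE, ?_⟩
  have e1 : (F * E).val * ψ * adj (F * E).val = F.val * (E.val * ψ * adj E.val) * adj F.val := by
    rw [Units.val_mul, adj_mul]
    simp only [Matrix.mul_assoc]
  rw [e1, h1, Matrix.mul_add, Matrix.add_mul, h2, adj_add, adj_mul, adj_mul, adj_adj]
  rw [Matrix.mul_sub, Matrix.sub_mul, Matrix.mul_smul, Matrix.smul_mul, smul_add]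
  simp only [Matrix.mul_assoc]
  abel

/-- block sums of matrices in the group of stably trivial matrices -/
theorem TT_blocks (U : Subgroup (MonoidAlgebra ℤ Γ)ˣ) (a : (Matrix κ κ (MonoidAlgebra ℤ Γ))ˣ)
    (b : (Matrix μ μ (MonoidAlgebra ℤ Γ))ˣ) (ha : TT U a) (hb : TT U b) :
    ∃ x : (Matrix (κ ⊕ μ) (κ ⊕ μ) (MonoidAlgebra ℤ Γ))ˣ, x.val = fromBlocks a.val 0 0 b.val ∧
      TT U x := by
  let x : (Matrix (κ ⊕ μ) (κ ⊕ μ) (MonoidAlgebra ℤ Γ))ˣ :=
    { val := fromBlocks a.val 0 0 b.val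
      inv := fromBlocks a⁻¹.val 0 0 b⁻¹.val
      val_inv := by rw [fromBlocks_multiply]; simp [fromBlocks_one]
      inv_val := by rw [fromBlocks_multiply]; simp [fromBlocks_one] }
  exact ⟨x, rfl, TT_tri U a b 0 x rfl ha hb⟩

theorem fb_sub {α β γ δ : Type} {R : Type} [AddGroup R] (A A' : Matrix α γ R) (B B' : Matrix α δ R)
    (C C' : Matrix β γ R) (D D' : Matrix β δ R) :
    fromBlocks A B C D - fromBlocks A' B' C' D' = fromBlocks (A - A') (B - B') (C - C') (D - D') := by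
  ext1 i j
  rcases i with i | i <;> rcases j with j | j <;> rfl

theorem Iso.blocks {ε : ℤ} {ψ ψ' : Matrix κ κ (MonoidAlgebra ℤ Γ)}
    {φ φ' : Matrix μ μ (MonoidAlgebra ℤ Γ)} (h : Iso ε ψ ψ') (h' : Iso ε φ φ') :
    Iso ε (fromBlocks ψ 0 0 φ) (fromBlocks ψ' 0 0 φ') := by
  obtain ⟨E, χ, hE, h1⟩ := h
  obtain ⟨F, ξ, hF, h2⟩ := h'
  obtain ⟨x, hx1, hx2⟩ := TT_blocks (TU Γ) E F hE hF
  refine ⟨x, fromBlocks χ 0 0 ξ, hx2, ?_⟩
  rw [hx1, adj_fromBlocks, adj_fromBlocks, fromBlocks_multiply, fromBlocks_multiply]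
  simp only [adj_zero, Matrix.mul_zero, Matrix.zero_mul, add_zero, zero_add]
  rw [h1, h2, fromBlocks_smul, fb_sub, fromBlocks_add]
  simp only [smul_zero, sub_zero, add_zero]

theorem Iso.reindex {ε : ℤ} {ψ ψ' : Matrix κ κ (MonoidAlgebra ℤ Γ)} (e : μ ≃ κ)
    (h : Iso ε ψ ψ') : Iso ε (ψ.submatrix e e) (ψ'.submatrix e e) := by
  obtain ⟨E, χ, hE, h1⟩ := h
  have e1 : (Units.map (re e) E).val = E.val.submatrix e e := rfl
  have e2 : E.val.submatrix e e * ψ.submatrix e e * adj (E.val.submatrix e e)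
      = (E.val * ψ * adj E.val).submatrix e e := by
    rw [adj_submatrix, Matrix.submatrix_mul_equiv, Matrix.submatrix_mul_equiv]
  have e3 : (ψ' + (χ - ε • adj χ)).submatrix e e
      = ψ'.submatrix e e + (χ.submatrix e e - ε • adj (χ.submatrix e e)) := by
    rw [adj_submatrix]
    rfl
  have e4 : (Units.map (re e) E).val * ψ.submatrix e e * adj (Units.map (re e) E).val
      = ψ'.submatrix e e + (χ.submatrix e e - ε • adj (χ.submatrix e e)) := by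
    rw [e1, e2, h1, e3]
  have e5 : TT (TU Γ) (Units.map (re e) E) := TT_re (TU Γ) e E hE
  exact ⟨_, _, e5, e4⟩

/-- the symmetrisation -/
noncomputable def lam (ε : ℤ) (ψ : Matrix κ κ (MonoidAlgebra ℤ Γ)) :
    Matrix κ κ (MonoidAlgebra ℤ Γ) := ψ + ε • adj ψ

theorem lam_conj (ε : ℤ) (ψ : Matrix κ κ (MonoidAlgebra ℤ Γ)) (E : Matrix κ κ (MonoidAlgebra ℤ Γ)) :
    lam ε (E * ψ * adj E) = E * lam ε ψ * adj E := by
  unfold lam
  rw [adj_mul, adj_mul, adj_adj, Matrix.mul_add, Matrix.add_mul, Matrix.mul_smul, Matrix.smul_mul]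
  simp only [Matrix.mul_assoc]

theorem adj_lam (ε : ℤ) (hε : ε * ε = 1) (ψ : Matrix κ κ (MonoidAlgebra ℤ Γ)) :
    adj (lam ε ψ) = ε • lam ε ψ := by
  unfold lam
  rw [adj_add, adj_zsmul, adj_adj, smul_add, smul_smul, hε, one_smul, add_comm]

theorem lam_apply (ε : ℤ) (ψ : Matrix κ κ (MonoidAlgebra ℤ Γ)) (i j : κ) :
    lam ε ψ i j = ψ i j + ε • bar (ψ j i) := rfl

theorem lam_symm (ε : ℤ) (hε : ε * ε = 1) (ψ : Matrix κ κ (MonoidAlgebra ℤ Γ)) (i j : κ) :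
    bar (lam ε ψ i j) = ε • lam ε ψ j i := congrFun (congrFun (adj_lam ε hε ψ) j) i

/-- splitting off a nonsingular block -/
theorem Iso.split {ε : ℤ} (hε : ε * ε = 1)
    (ψ : Matrix (ι ⊕ κ) (ι ⊕ κ) (MonoidAlgebra ℤ Γ)) (B' : Matrix ι ι (MonoidAlgebra ℤ Γ))
    (h1 : (lam ε ψ).toBlocks₁₁ * B' = 1) (h2 : B' * (lam ε ψ).toBlocks₁₁ = 1) :
    ∃ ψ' : Matrix κ κ (MonoidAlgebra ℤ Γ), Iso ε ψ (fromBlocks ψ.toBlocks₁₁ 0 0 ψ') ∧
      lam ε ψ' = (lam ε ψ).toBlocks₂₂ - (lam ε ψ).toBlocks₂₁ * B' * (lam ε ψ).toBlocks₁₂ ∧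
      (IsUnit (lam ε ψ) → IsUnit (lam ε ψ')) := by
  set B := (lam ε ψ).toBlocks₁₁ with hB
  set C := (lam ε ψ).toBlocks₁₂ with hC
  set C' := (lam ε ψ).toBlocks₂₁ with hC'
  set D := (lam ε ψ).toBlocks₂₂ with hD
  have hblk : lam ε ψ = fromBlocks B C C' D := (fromBlocks_toBlocks _).symm
  have hadj := adj_lam ε hε ψ
  rw [hblk, adj_fromBlocks, fromBlocks_smul, fromBlocks_inj] at hadj
  obtain ⟨a1, a2, a3, a4⟩ := hadj
  -- the change of basis
  let Z : Matrix (ι ⊕ κ) (ι ⊕ κ) (MonoidAlgebra ℤ Γ) := fromBlocks 1 0 (-(C' * B')) 1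
  obtain ⟨E, hE1, hE2⟩ := El_unit (R := MonoidAlgebra ℤ Γ) Z (by
    have h3 : Z = 1 + fromBlocks 0 0 (-(C' * B')) 0 := by
      rw [← fromBlocks_one, fromBlocks_add]; simp [Z]
    rw [h3]
    exact el_unip (Finset.univ.filter fun v : ι ⊕ κ => v.isRight) _ (by
      rintro (i | i) (j | j) h <;> simp at h ⊢))
  set φ := E.val * ψ * adj E.val with hφ
  have hlam : lam ε φ = fromBlocks B 0 0 (D - C' * B' * C) := by
    rw [hφ, lam_conj, hE1, hblk]
    change fromBlocks 1 0 (-(C' * B')) 1 * fromBlocks B C C' D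
      * adj (fromBlocks 1 0 (-(C' * B')) 1) = _
    rw [adj_fromBlocks, adj_one, adj_zero, adj_one, adj_neg, adj_mul, fromBlocks_multiply,
      fromBlocks_multiply]
    have e1 : C' * B' * B = C' := by rw [Matrix.mul_assoc, h2, Matrix.mul_one]
    have e2 : adj B' * adj C' = B' * C := by
      -- `adj C' = ε C`, `adj B' = ε B'`
      have e3 : adj C' = ε • C := a2
      have e4 : adj B' = ε • B' := by
        have e5 : B * (ε • adj B') = 1 := by
          rw [Matrix.mul_smul]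
          have e6 : ε • (B * adj B') = (ε • B) * adj B' := (Matrix.smul_mul _ _ _).symm
          rw [e6, ← a1, ← adj_mul, h2, adj_one]
        have e7 : ε • adj B' = B' := by
          calc ε • adj B' = (B' * B) * (ε • adj B') := by rw [h2, Matrix.one_mul]
            _ = B' := by rw [Matrix.mul_assoc, e5, Matrix.mul_one]
        calc adj B' = ε • (ε • adj B') := by rw [smul_smul, hε, one_smul]
          _ = ε • B' := by rw [e7]
      rw [e3, e4, Matrix.smul_mul, Matrix.mul_smul, smul_smul, hε, one_smul]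
    simp only [Matrix.one_mul, Matrix.zero_mul, add_zero, Matrix.mul_one, Matrix.mul_zero,
      Matrix.neg_mul, e1, Matrix.mul_neg, e2]
    congr 1
    · rw [← Matrix.mul_assoc, h1, Matrix.one_mul]
      abel
    · abel
    · rw [neg_add_cancel, Matrix.zero_mul, neg_zero, zero_add]
      abel
  set φ' := φ.toBlocks₂₂ with hφ'
  have hφblk : φ = fromBlocks φ.toBlocks₁₁ φ.toBlocks₁₂ φ.toBlocks₂₁ φ' :=
    (fromBlocks_toBlocks _).symm
  have h11 : φ.toBlocks₁₁ = ψ.toBlocks₁₁ := by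
    have e1 : φ = fromBlocks 1 0 (-(C' * B')) 1
        * fromBlocks ψ.toBlocks₁₁ ψ.toBlocks₁₂ ψ.toBlocks₂₁ ψ.toBlocks₂₂
        * adj (fromBlocks 1 0 (-(C' * B')) 1) := by
      rw [hφ, hE1, fromBlocks_toBlocks]
    rw [e1, adj_fromBlocks, adj_one, adj_zero, adj_one, fromBlocks_multiply,
      fromBlocks_multiply, toBlocks_fromBlocks₁₁]
    simp
  have hl : lam ε φ = fromBlocks (lam ε φ.toBlocks₁₁) (φ.toBlocks₁₂ + ε • adj φ.toBlocks₂₁)
      (φ.toBlocks₂₁ + ε • adj φ.toBlocks₁₂) (lam ε φ') := by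
    conv_lhs => rw [hφblk]
    unfold lam
    rw [adj_fromBlocks, fromBlocks_smul, fromBlocks_add]
  rw [hlam, fromBlocks_inj] at hl
  obtain ⟨b1, b2, b3, b4⟩ := hl
  refine ⟨φ', ⟨E, fromBlocks 0 φ.toBlocks₁₂ 0 0, hE2 _, ?_⟩, b4.symm, ?_⟩
  · rw [← hφ, adj_fromBlocks, fromBlocks_smul, fb_sub, fromBlocks_add, adj_zero, adj_zero, adj_zero]
    conv_lhs => rw [hφblk]
    rw [h11]
    congr 1
    · simp
    · simp
    · rw [zero_add, zero_sub]
      exact eq_neg_of_add_eq_zero_left b3.symm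
    · simp
  · intro hu
    have h3 : IsUnit (lam ε φ) := by
      rw [hφ, lam_conj]
      obtain ⟨u, hu⟩ := hu
      have h4 : IsUnit (adj E.val) := by
        refine ⟨⟨adj E.val, adj E⁻¹.val, ?_, ?_⟩, rfl⟩
        · rw [← adj_mul, E.inv_mul, adj_one]
        · rw [← adj_mul, E.mul_inv, adj_one]
      exact (E.isUnit.mul ⟨u, hu⟩).mul h4
    rw [hlam] at h3
    obtain ⟨w, hw⟩ := h3
    have h5 : w.val * w⁻¹.val = 1 := w.mul_inv
    have h6 : w⁻¹.val * w.val = 1 := w.inv_mul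
    rw [hw, ← fromBlocks_toBlocks w⁻¹.val, fromBlocks_multiply, ← fromBlocks_one,
      fromBlocks_inj] at h5 h6
    rw [← b4]
    refine ⟨⟨D - C' * B' * C, w⁻¹.val.toBlocks₂₂, ?_, ?_⟩, rfl⟩
    · simpa using h5.2.2.2
    · simpa using h6.2.2.2

end Pool.Agent.R719.LF
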