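import Pool.Agent.R719.LF.Piv

set_option autoImplicit false
set_option linter.unusedSectionVars false

/-! Diagonally dominant quadratic forms over integral group rings. -/

namespace Pool.Agent.R719.LF

open Matrix TH57.Thr TH6.LF TH6.CX Pool.Agent.Y75.Th Pool.Agent.Y35.KC.TTm Pool.Agent.R719.DD

variable {Γ : Type} [Group Γ] {κ μ ι : Type} [Fintype κ] [DecidableEq κ] [Fintype μ]
  [DecidableEq μ] [Fintype ι] [DecidableEq ι]

/-- dominance at symmetric positions -/
structure DomF (ε : ℤ) (ψ : Matrix κ κ (MonoidAlgebra ℤ Γ)) (σ : κ → κ) (γ : κ → Γ) (s : κ → ℤ) :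
    Prop where
  invol : ∀ i, σ (σ i) = i
  inv : ∀ i, γ (σ i) = (γ i)⁻¹
  sgn : ∀ i, s i * s i = 1
  sgn' : ∀ i, s (σ i) = ε * s i
  dom : ∀ i, ∑ j, (l1 (lam ε ψ i j) : ℤ) ≤ 2 * (s i * (lam ε ψ i (σ i)).coeff (γ i))

theorem l1_mul_single' (g : Γ) (s : ℤ) (hs : s * s = 1) (x : MonoidAlgebra ℤ Γ) :
    l1 (x * MonoidAlgebra.single g s) = l1 x := by
  have h1 : bar (x * MonoidAlgebra.single g s) = MonoidAlgebra.single g⁻¹ s * bar x := by
    rw [bar_mul, bar_single]
  rw [← l1_bar, h1, l1_single_mul' _ _ hs, l1_bar]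

/-- the pivot -/
theorem exists_pivot {ε : ℤ} {ψ : Matrix κ κ (MonoidAlgebra ℤ Γ)} {σ : κ → κ} {γ : κ → Γ}
    {s : κ → ℤ} (h : DomF ε ψ σ γ s) (hu : IsUnit (lam ε ψ)) [Nonempty κ] :
    ∃ i, lam ε ψ i (σ i) = MonoidAlgebra.single (γ i) (s i) ∧
      ∑ m ∈ Finset.univ.erase (σ i), l1 (lam ε ψ i m) ≤ 1 := by
  obtain ⟨L, hL⟩ := hu
  have hσ : Function.Injective σ := fun a b hab => by rw [← h.invol a, hab, h.invol]
  let P : (Matrix κ κ (MonoidAlgebra ℤ Γ))ˣ :=
    { val := Matrix.of fun m l => if m = σ l then MonoidAlgebra.single (γ l)⁻¹ (s l) else 0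
      inv := Matrix.of fun l m => if m = σ l then MonoidAlgebra.single (γ l) (s l) else 0
      val_inv := by
        ext1 m m'
        rw [Matrix.mul_apply, Finset.sum_eq_single (σ m)]
        · simp only [Matrix.of_apply]
          rw [h.invol, if_pos rfl]
          by_cases hm : m = m'
          · subst hm
            rw [if_pos rfl, MonoidAlgebra.single_mul_single, inv_mul_cancel, h.sgn,
              Matrix.one_apply_eq, MonoidAlgebra.one_def]
          · rw [if_neg (Ne.symm hm), mul_zero, Matrix.one_apply_ne hm]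
        · intro l _ hl
          simp only [Matrix.of_apply]
          rw [if_neg (fun hh => hl (by rw [hh, h.invol])), zero_mul]
        · intro hh; exact absurd (Finset.mem_univ _) hh
      inv_val := by
        ext1 l l'
        rw [Matrix.mul_apply, Finset.sum_eq_single (σ l)]
        · simp only [Matrix.of_apply]
          rw [if_pos trivial]
          by_cases hm : l = l'
          · subst hm
            rw [if_pos rfl, MonoidAlgebra.single_mul_single, mul_inv_cancel, h.sgn,
              Matrix.one_apply_eq, MonoidAlgebra.one_def]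
          · rw [if_neg (fun hh => hm (hσ hh)), mul_zero, Matrix.one_apply_ne hm]
        · intro m _ hm
          simp only [Matrix.of_apply]
          rw [if_neg hm, zero_mul]
        · intro hh; exact absurd (Finset.mem_univ _) hh }
  have hA : ∀ k l, (L * P).val k l
      = lam ε ψ k (σ l) * MonoidAlgebra.single (γ l)⁻¹ (s l) := by
    intro k l
    rw [Units.val_mul, hL, Matrix.mul_apply, Finset.sum_eq_single (σ l)]
    · simp only [P, Matrix.of_apply]
      rw [if_pos trivial]
    · intro m _ hm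
      simp only [P, Matrix.of_apply]
      rw [if_neg hm, mul_zero]
    · intro hh; exact absurd (Finset.mem_univ _) hh
  let eσ : κ ≃ κ := ⟨σ, σ, h.invol, h.invol⟩
  have hl1 : ∀ k l, l1 ((L * P).val k l) = l1 (lam ε ψ k (σ l)) := by
    intro k l
    rw [hA, l1_mul_single' _ _ (h.sgn l)]
  have hc1 : ∀ k, ((L * P).val k k).coeff 1 = s k * (lam ε ψ k (σ k)).coeff (γ k) := by
    intro k
    rw [hA, MonoidAlgebra.coeff_mul_single_apply, inv_inv, one_mul, mul_comm]
  have hDD : DDom (L * P).val := by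
    intro k
    rw [hc1]
    simp only [hl1]
    have h1 := eσ.sum_comp (fun m => (l1 (lam ε ψ k m) : ℤ))
    refine le_trans (le_of_eq h1) (h.dom k)
  obtain ⟨i, hi⟩ := exists_diag_one (L * P) hDD
  obtain ⟨h1, h2⟩ := diag_entry (L * P) hDD i hi
  refine ⟨i, ?_, ?_⟩
  · rw [hA] at h1
    calc lam ε ψ i (σ i) = lam ε ψ i (σ i) * (MonoidAlgebra.single (γ i)⁻¹ (s i)
          * MonoidAlgebra.single (γ i) (s i)) := by
            rw [MonoidAlgebra.single_mul_single, inv_mul_cancel, h.sgn, ← MonoidAlgebra.one_def,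
              mul_one]
      _ = MonoidAlgebra.single (γ i) (s i) := by rw [← mul_assoc, h1, one_mul]
  · simp only [hl1] at h2
    refine le_trans (le_of_eq ?_) h2
    symm
    refine Finset.sum_bij (fun l _ => σ l) ?_ ?_ ?_ ?_
    · intro l hl
      exact Finset.mem_erase.2 ⟨fun hh => (Finset.mem_erase.1 hl).1 (hσ hh), Finset.mem_univ _⟩
    · intro a _ b _ hab; exact hσ hab
    · intro m hm
      refine ⟨σ m, Finset.mem_erase.2 ⟨fun hh => (Finset.mem_erase.1 hm).1 ?_,
        Finset.mem_univ _⟩, h.invol m⟩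
      rw [← hh, h.invol]
    · intro l _; rfl

theorem augZ_bar (x : MonoidAlgebra ℤ Γ) : augZ (bar x) = augZ x := by
  induction x using MonoidAlgebra.induction_linear with
  | zero => simp
  | add a b ha hb => rw [bar_add, map_add, map_add, ha, hb]
  | single g r =>
    rw [bar_single]
    change MonoidAlgebra.lift ℤ ℤ Γ (1 : Γ →* ℤ) _ = MonoidAlgebra.lift ℤ ℤ Γ (1 : Γ →* ℤ) _
    simp

/-- the diagonal entries have even mass -/
theorem l1_diag_even {ε : ℤ} (hε : ε = 1 ∨ ε = -1) (ψ : Matrix κ κ (MonoidAlgebra ℤ Γ)) (i : κ) :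
    (l1 (lam ε ψ i i) : ZMod 2) = 0 := by
  rw [← aug_two, lam_apply, map_add, map_zsmul, augZ_bar]
  rcases hε with rfl | rfl
  · rw [one_smul, ← two_mul]
    push_cast
    have : (2 : ZMod 2) = 0 := rfl
    rw [this, zero_mul]
  · rw [neg_smul, one_smul, add_neg_cancel]
    simp

theorem diag_zero {ε : ℤ} (hε : ε = 1 ∨ ε = -1) (ψ : Matrix κ κ (MonoidAlgebra ℤ Γ)) (i : κ)
    (h : l1 (lam ε ψ i i) ≤ 1) : lam ε ψ i i = 0 := by
  have h1 := l1_diag_even hε ψ i
  rw [← l1_zero_iff]
  rcases Nat.le_one_iff_eq_zero_or_eq_one.1 h with h2 | h2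
  · exact h2
  · rw [h2] at h1
    exact absurd h1 (by decide)

/-- removing two indices -/
def e2 (i j : κ) (hij : i ≠ j) : (Unit ⊕ Unit) ⊕ {k : κ // k ≠ i ∧ k ≠ j} ≃ κ where
  toFun := Sum.elim (Sum.elim (fun _ => i) (fun _ => j)) Subtype.val
  invFun k := if h : k = i then Sum.inl (Sum.inl ()) else if h' : k = j then Sum.inl (Sum.inr ())
    else Sum.inr ⟨k, h, h'⟩
  left_inv := by
    rintro ((⟨⟩ | ⟨⟩) | ⟨k, hk1, hk2⟩)
    · simp
    · simp [Ne.symm hij]
    · simp [hk1, hk2]
  right_inv := by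
    intro k
    by_cases h : k = i
    · simp [h]
    · by_cases h' : k = j
      · subst h'
        simp [Ne.symm hij]
      · simp [h, h']

theorem sum_e2 {M : Type} [AddCommMonoid M] (i j : κ) (hij : i ≠ j) (f : κ → M) :
    ∑ k, f k = f i + f j + ∑ k : {k : κ // k ≠ i ∧ k ≠ j}, f k := by
  rw [← (e2 i j hij).sum_comp f, Fintype.sum_sum_type, Fintype.sum_sum_type]
  simp only [Finset.univ_unique, Finset.sum_singleton]
  rfl

theorem lam_submatrix (ε : ℤ) (ψ : Matrix κ κ (MonoidAlgebra ℤ Γ)) (e : μ → κ) :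
    lam ε (ψ.submatrix e e) = (lam ε ψ).submatrix e e := rfl

/-- **Diagonally dominant quadratic forms.** -/
theorem main (htf : ∀ g : Γ, g * g = 1 → g = 1) {ε : ℤ} (hε : ε = 1 ∨ ε = -1) :
    ∀ (n : ℕ) (κ : Type) [Fintype κ] [DecidableEq κ], Fintype.card κ = n →
    ∀ (ψ : Matrix κ κ (MonoidAlgebra ℤ Γ)) (σ : κ → κ) (γ : κ → Γ) (s : κ → ℤ),
      DomF ε ψ σ γ s → IsUnit (lam ε ψ) →
      ∃ (μ : Type) (_ : Fintype μ) (_ : DecidableEq μ) (e : μ ⊕ μ ≃ κ) (a b : μ → ℤ),
        (∀ k, (a k = 0 ∨ a k = 1) ∧ (b k = 0 ∨ b k = 1)) ∧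
        (ε = 1 → ∀ k, a k = 0 ∧ b k = 0) ∧ Iso ε (ψ.submatrix e e) (pf a b) := by
  have hεε : ε * ε = 1 := by rcases hε with rfl | rfl <;> norm_num
  intro n
  induction n using Nat.strong_induction_on with
  | _ n ih =>
  intro κ _ _ hn ψ σ γ s h hu
  by_cases hne : Nonempty κ
  · obtain ⟨i, hi1, hi2⟩ := exists_pivot h hu
    set j := σ i with hj
    have hsi := h.sgn i
    have hij : i ≠ j := by
      intro hij
      have h1 := l1_diag_even hε ψ i
      rw [← hij] at hi1
      rw [hi1] at h1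
      have h2 : l1 (MonoidAlgebra.single (γ i) (s i) : MonoidAlgebra ℤ Γ) = 1 := by
        rw [l1_single]
        rcases Int.isUnit_iff.1 (IsUnit.of_mul_eq_one _ hsi) with h3 | h3 <;> rw [h3] <;> rfl
      rw [h2] at h1
      exact absurd h1 (by decide)
    have hσj : σ j = i := h.invol i
    have hji1 : lam ε ψ j i = MonoidAlgebra.single (γ i)⁻¹ (ε * s i) := by
      have h1 := lam_symm ε hεε ψ i j
      rw [hi1, bar_single] at h1
      calc lam ε ψ j i = ε • (ε • lam ε ψ j i) := by rw [smul_smul, hεε, one_smul]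
        _ = ε • MonoidAlgebra.single (γ i)⁻¹ (s i) := by rw [← h1]
        _ = _ := by
          ext g
          rw [coeff_zs, MonoidAlgebra.coeff_single, MonoidAlgebra.coeff_single]
          classical
          rw [Finsupp.single_apply, Finsupp.single_apply]
          split_ifs <;> ring
    have hεs : (ε * s i) * (ε * s i) = 1 := by
      calc (ε * s i) * (ε * s i) = (ε * ε) * (s i * s i) := by ring
        _ = 1 := by rw [hεε, hsi, one_mul]
    have hi0 : lam ε ψ i i = 0 := by
      apply diag_zero hε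
      exact (Finset.single_le_sum (f := fun m => l1 (lam ε ψ i m)) (fun _ _ => Nat.zero_le _)
        (Finset.mem_erase.2 ⟨hij, Finset.mem_univ _⟩)).trans hi2
    have hj2 : ∑ m ∈ Finset.univ.erase i, (l1 (lam ε ψ j m) : ℤ) ≤ 1 := by
      have h1 := h.dom j
      rw [hσj, hji1, ← Finset.add_sum_erase _ _ (Finset.mem_univ i), h.inv, h.sgn'] at h1
      have h2 : (MonoidAlgebra.single (γ i)⁻¹ (ε * s i) : MonoidAlgebra ℤ Γ).coeff (γ i)⁻¹
          = ε * s i := by simp
      rw [h2, hεs, hji1, l1_single] at h1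
      have h3 : (((ε * s i).natAbs : ℕ) : ℤ) = 1 := by
        rcases Int.isUnit_iff.1 (IsUnit.of_mul_eq_one _ hεs) with h4 | h4 <;> rw [h4] <;> rfl
      rw [h3] at h1
      linarith
    have hj0 : lam ε ψ j j = 0 := by
      apply diag_zero hε
      have h1 := (Finset.single_le_sum (f := fun m => (l1 (lam ε ψ j m) : ℤ))
        (fun _ _ => Nat.cast_nonneg _)
        (Finset.mem_erase.2 ⟨Ne.symm hij, Finset.mem_univ _⟩)).trans hj2
      exact_mod_cast h1
    -- reindexing
    let κ' := {k : κ // k ≠ i ∧ k ≠ j}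
    let e := e2 i j hij
    set φ := ψ.submatrix e e with hφ
    have hlφ : lam ε φ = (lam ε ψ).submatrix e e := rfl
    let B' : Matrix (Unit ⊕ Unit) (Unit ⊕ Unit) (MonoidAlgebra ℤ Γ) :=
      fromBlocks 0 (Matrix.of fun _ _ => MonoidAlgebra.single (γ i) (ε * s i))
        (Matrix.of fun _ _ => MonoidAlgebra.single (γ i)⁻¹ (s i)) 0
    have hB : (lam ε φ).toBlocks₁₁
        = fromBlocks 0 (Matrix.of fun _ _ => MonoidAlgebra.single (γ i) (s i))
        (Matrix.of fun _ _ => MonoidAlgebra.single (γ i)⁻¹ (ε * s i)) 0 := by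
      ext1 x y
      rcases x with ⟨⟩ | ⟨⟩ <;> rcases y with ⟨⟩ | ⟨⟩
      · exact hi0
      · exact hi1
      · exact hji1
      · exact hj0
    have hB1 : (lam ε φ).toBlocks₁₁ * B' = 1 := by
      rw [hB, fromBlocks_multiply, ← fromBlocks_one]
      simp only [Matrix.mul_zero, Matrix.zero_mul, add_zero, zero_add]
      congr 1
      · ext1 x y
        rw [Matrix.mul_apply]
        simp only [Finset.univ_unique, Finset.sum_singleton, Matrix.of_apply]
        rw [MonoidAlgebra.single_mul_single, mul_inv_cancel, hsi, ← MonoidAlgebra.one_def]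
        exact (Matrix.one_apply_eq ()).symm
      · ext1 x y
        rw [Matrix.mul_apply]
        simp only [Finset.univ_unique, Finset.sum_singleton, Matrix.of_apply]
        rw [MonoidAlgebra.single_mul_single, inv_mul_cancel, hεs, ← MonoidAlgebra.one_def]
        exact (Matrix.one_apply_eq ()).symm
    have hB2 : B' * (lam ε φ).toBlocks₁₁ = 1 := by
      rw [hB, fromBlocks_multiply, ← fromBlocks_one]
      simp only [Matrix.mul_zero, Matrix.zero_mul, add_zero, zero_add]
      congr 1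
      · ext1 x y
        rw [Matrix.mul_apply]
        simp only [Finset.univ_unique, Finset.sum_singleton, Matrix.of_apply]
        rw [MonoidAlgebra.single_mul_single, mul_inv_cancel, hεs, ← MonoidAlgebra.one_def]
        exact (Matrix.one_apply_eq ()).symm
      · ext1 x y
        rw [Matrix.mul_apply]
        simp only [Finset.univ_unique, Finset.sum_singleton, Matrix.of_apply]
        rw [MonoidAlgebra.single_mul_single, inv_mul_cancel, hsi, ← MonoidAlgebra.one_def]
        exact (Matrix.one_apply_eq ()).symm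
    obtain ⟨ψ', hψ1, hψ2, hψ3⟩ := Iso.split hεε φ B' hB1 hB2
    have huφ : IsUnit (lam ε φ) := by
      obtain ⟨L, hL⟩ := hu
      exact ⟨Units.map (re e) L, by rw [hlφ, ← hL]; rfl⟩
    have hu' := hψ3 huφ
    have hent : ∀ k l : κ', lam ε ψ' k l = lam ε ψ k l
        - (lam ε ψ k i * MonoidAlgebra.single (γ i) (ε * s i) * lam ε ψ j l
          + lam ε ψ k j * MonoidAlgebra.single (γ i)⁻¹ (s i) * lam ε ψ i l) := by
      intro k l
      rw [hψ2, Matrix.sub_apply]
      congr 1
      rw [Matrix.mul_apply, Fintype.sum_sum_type]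
      simp only [Finset.univ_unique, Finset.sum_singleton]
      have h1 : ((lam ε φ).toBlocks₂₁ * B') k (Sum.inl ())
          = lam ε ψ k j * MonoidAlgebra.single (γ i)⁻¹ (s i) := by
        rw [Matrix.mul_apply, Fintype.sum_sum_type]
        simp only [Finset.univ_unique, Finset.sum_singleton]
        change lam ε ψ k i * 0 + lam ε ψ k j * MonoidAlgebra.single (γ i)⁻¹ (s i) = _
        rw [mul_zero, zero_add]
      have h2 : ((lam ε φ).toBlocks₂₁ * B') k (Sum.inr ())
          = lam ε ψ k i * MonoidAlgebra.single (γ i) (ε * s i) := by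
        rw [Matrix.mul_apply, Fintype.sum_sum_type]
        simp only [Finset.univ_unique, Finset.sum_singleton]
        change lam ε ψ k i * MonoidAlgebra.single (γ i) (ε * s i) + lam ε ψ k j * 0 = _
        rw [mul_zero, add_zero]
      change ((lam ε φ).toBlocks₂₁ * B') k (Sum.inl ()) * lam ε ψ i l
        + ((lam ε φ).toBlocks₂₁ * B') k (Sum.inr ()) * lam ε ψ j l = _
      rw [h1, h2, add_comm]
    -- the new data
    have hσ' : ∀ k : κ', σ k ≠ i ∧ σ k ≠ j := by
      intro k
      refine ⟨fun hh => k.2.2 ?_, fun hh => k.2.1 ?_⟩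
      · rw [← h.invol k, hh]
      · rw [← h.invol k, hh, hσj]
    let σ' : κ' → κ' := fun k => ⟨σ k, hσ' k⟩
    have hdom' : DomF ε ψ' σ' (fun k => γ k) (fun k => s k) := by
      refine ⟨fun k => Subtype.ext (h.invol k), fun k => h.inv k, fun k => h.sgn k,
        fun k => h.sgn' k, fun k => ?_⟩
      have h1 := h.dom k
      rw [sum_e2 i j hij] at h1
      have h2 : ∀ l : κ', lam ε ψ' k l = lam ε ψ k l
        - (lam ε ψ k i * MonoidAlgebra.single (γ i) (ε * s i) * lam ε ψ j l
          + lam ε ψ k j * MonoidAlgebra.single (γ i)⁻¹ (s i) * lam ε ψ i l) := hent k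
      simp only [h2]
      refine row_est (fun l : κ' => lam ε ψ k l) (fun l : κ' =>
        (lam ε ψ k i * MonoidAlgebra.single (γ i) (ε * s i) * lam ε ψ j l
          + lam ε ψ k j * MonoidAlgebra.single (γ i)⁻¹ (s i) * lam ε ψ i l)) (σ' k) (γ k) (s k)
        (h.sgn k) ((l1 (lam ε ψ k i) : ℤ) + l1 (lam ε ψ k j)) h1 ?_
      have h3 : ∀ l : κ', (l1 (lam ε ψ k i * MonoidAlgebra.single (γ i) (ε * s i) * lam ε ψ j l
          + lam ε ψ k j * MonoidAlgebra.single (γ i)⁻¹ (s i) * lam ε ψ i l) : ℤ)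
          ≤ l1 (lam ε ψ k i) * l1 (lam ε ψ j l) + l1 (lam ε ψ k j) * l1 (lam ε ψ i l) := by
        intro l
        have e1 := l1_add_le (lam ε ψ k i * MonoidAlgebra.single (γ i) (ε * s i) * lam ε ψ j l)
          (lam ε ψ k j * MonoidAlgebra.single (γ i)⁻¹ (s i) * lam ε ψ i l)
        have e2 := l1_mul_le (lam ε ψ k i * MonoidAlgebra.single (γ i) (ε * s i)) (lam ε ψ j l)
        have e3 := l1_mul_le (lam ε ψ k j * MonoidAlgebra.single (γ i)⁻¹ (s i)) (lam ε ψ i l)
        rw [l1_mul_single' _ _ hεs] at e2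
        rw [l1_mul_single' _ _ hsi] at e3
        exact_mod_cast e1.trans (Nat.add_le_add e2 e3)
      refine (Finset.sum_le_sum fun l _ => h3 l).trans ?_
      rw [Finset.sum_add_distrib, ← Finset.mul_sum, ← Finset.mul_sum]
      have h4 : ∑ l : κ', (l1 (lam ε ψ j l) : ℤ) ≤ 1 := by
        refine le_trans ?_ hj2
        have h5 := sum_e2 i j hij (fun m => (l1 (lam ε ψ j m) : ℤ))
        rw [← Finset.add_sum_erase _ _ (Finset.mem_univ i)] at h5
        have h6 : (0 : ℤ) ≤ l1 (lam ε ψ j j) := Nat.cast_nonneg _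
        linarith
      have h5 : ∑ l : κ', (l1 (lam ε ψ i l) : ℤ) ≤ 1 := by
        have hi2' : ∑ m ∈ Finset.univ.erase j, (l1 (lam ε ψ i m) : ℤ) ≤ 1 := by exact_mod_cast hi2
        refine le_trans ?_ hi2'
        have h5 := sum_e2 i j hij (fun m => (l1 (lam ε ψ i m) : ℤ))
        rw [← Finset.add_sum_erase _ _ (Finset.mem_univ j)] at h5
        have h6 : (0 : ℤ) ≤ l1 (lam ε ψ i i) := Nat.cast_nonneg _
        linarith
      have h6 : (0 : ℤ) ≤ l1 (lam ε ψ k i) := Nat.cast_nonneg _
      have h7 : (0 : ℤ) ≤ l1 (lam ε ψ k j) := Nat.cast_nonneg _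
      nlinarith
    have hcard : Fintype.card κ' < n := by
      rw [← hn]
      exact Fintype.card_subtype_lt (x := i) (fun hh => hh.1 rfl)
    obtain ⟨μ', i1, i2, e', a', b', c1, c2, c3⟩ := ih _ hcard κ' rfl ψ' σ' _ _ hdom' hu'
    obtain ⟨a0, b0, d1, d2, d3⟩ := plane htf hε φ.toBlocks₁₁ (γ i) (s i) hsi hi0 hj0 hi1
    -- assembling
    let w : (Unit ⊕ μ') ⊕ (Unit ⊕ μ') ≃ (Unit ⊕ Unit) ⊕ (μ' ⊕ μ') :=
      { toFun := Sum.elim (Sum.elim (fun _ => Sum.inl (Sum.inl ())) (fun k => Sum.inr (Sum.inl k)))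
          (Sum.elim (fun _ => Sum.inl (Sum.inr ())) (fun k => Sum.inr (Sum.inr k)))
        invFun := Sum.elim (Sum.elim (fun _ => Sum.inl (Sum.inl ())) (fun _ => Sum.inr (Sum.inl ())))
          (Sum.elim (fun k => Sum.inl (Sum.inr k)) (fun k => Sum.inr (Sum.inr k)))
        left_inv := by rintro ((⟨⟩ | k) | (⟨⟩ | k)) <;> rfl
        right_inv := by rintro ((⟨⟩ | ⟨⟩) | (k | k)) <;> rfl }
    let v : (Unit ⊕ Unit) ⊕ (μ' ⊕ μ') ≃ (Unit ⊕ Unit) ⊕ κ' :=
      Equiv.sumCongr (Equiv.refl _) e'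
    refine ⟨Unit ⊕ μ', inferInstance, inferInstance, w.trans (v.trans e), Sum.elim a0 a',
      Sum.elim b0 b', ?_, ?_, ?_⟩
    · rintro (k | k)
      · exact d1 k
      · exact c1 k
    · rintro hh (k | k)
      · exact d2 hh k
      · exact c2 hh k
    · have s1 : Iso ε (φ.submatrix v v)
          ((fromBlocks φ.toBlocks₁₁ 0 0 ψ').submatrix v v) := hψ1.reindex v
      have s2 : (fromBlocks φ.toBlocks₁₁ 0 0 ψ').submatrix v v
          = fromBlocks φ.toBlocks₁₁ 0 0 (ψ'.submatrix e' e') := by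
        ext1 x y
        rcases x with x | x <;> rcases y with y | y <;> rfl
      have s3 : Iso ε (fromBlocks φ.toBlocks₁₁ 0 0 (ψ'.submatrix e' e'))
          (fromBlocks (pf a0 b0) 0 0 (pf a' b')) := d3.blocks c3
      rw [s2] at s1
      have s4 := (s1.trans s3).reindex w
      have s5 : (fromBlocks (pf a0 b0) 0 0 (pf a' b') :
          Matrix ((Unit ⊕ Unit) ⊕ (μ' ⊕ μ')) ((Unit ⊕ Unit) ⊕ (μ' ⊕ μ'))
            (MonoidAlgebra ℤ Γ)).submatrix w w = pf (Sum.elim a0 a') (Sum.elim b0 b') := by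
        ext1 x y
        rcases x with (x | x) | (x | x) <;> rcases y with (y | y) | (y | y) <;>
          simp [pf, w, Matrix.one_apply, Matrix.diagonal_apply]
      rw [s5] at s4
      exact s4
  · have hκ : IsEmpty κ := not_nonempty_iff.1 hne
    refine ⟨Empty, inferInstance, inferInstance, ⟨Sum.elim Empty.elim Empty.elim,
      fun k => (hκ.false k).elim, ?_, ?_⟩, Empty.elim, Empty.elim, ?_, ?_, ?_⟩
    · rintro (x | x) <;> exact x.elim
    · intro k; exact (hκ.false k).elim
    · rintro ⟨⟩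
    · rintro _ ⟨⟩
    · have : ψ.submatrix (Sum.elim Empty.elim Empty.elim : Empty ⊕ Empty → κ)
          (Sum.elim Empty.elim Empty.elim) = pf (Γ := Γ) Empty.elim Empty.elim := by
        ext1 x y
        rcases x with x | x <;> exact x.elim
      change Iso ε (ψ.submatrix (Sum.elim Empty.elim Empty.elim : Empty ⊕ Empty → κ)
          (Sum.elim Empty.elim Empty.elim)) _
      rw [this]
      exact Iso.refl _ _

end Pool.Agent.R719.LF
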