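import Pool.Agent.R719.LF.Iso

set_option autoImplicit false
set_option linter.unusedSectionVars false

/-! Diagonally dominant quadratic forms: the pivot step. -/

namespace Pool.Agent.R719.LF

open Matrix TH57.Thr TH6.LF TH6.CX Pool.Agent.Y75.Th Pool.Agent.Y35.KC.TTm Pool.Agent.R719.DD

variable {Γ : Type} [Group Γ] {κ μ ι : Type} [Fintype κ] [DecidableEq κ] [Fintype μ]
  [DecidableEq μ] [Fintype ι] [DecidableEq ι]

theorem coeff_zs (ε : ℤ) (x : MonoidAlgebra ℤ Γ) (g : Γ) : (ε • x).coeff g = ε * x.coeff g := rfl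

theorem l1_single_mul' (g : Γ) (s : ℤ) (hs : s * s = 1) (x : MonoidAlgebra ℤ Γ) :
    l1 (MonoidAlgebra.single g s * x) = l1 x := by
  have hsu : s = 1 ∨ s = -1 := Int.isUnit_iff.1 (IsUnit.of_mul_eq_one s hs)
  have hsn : s.natAbs = 1 := by rcases hsu with rfl | rfl <;> rfl
  apply le_antisymm
  · have := l1_single_mul g s x
    rwa [hsn, one_mul] at this
  · have := l1_single_mul g⁻¹ s (MonoidAlgebra.single g s * x)
    rwa [hsn, one_mul, ← mul_assoc, MonoidAlgebra.single_mul_single, inv_mul_cancel, hs,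
      ← MonoidAlgebra.one_def, one_mul] at this

/-- skew elements are integers modulo the trivial ones -/
theorem skew_red (htf : ∀ g : Γ, g * g = 1 → g = 1) {ε : ℤ}
    (hε : ε = 1 ∨ ε = -1) (p : MonoidAlgebra ℤ Γ) (hp : p + ε • bar p = 0) :
    ∃ (a : ℤ) (χ : MonoidAlgebra ℤ Γ), (a = 0 ∨ a = 1) ∧ (ε = 1 → a = 0) ∧
      p = MonoidAlgebra.single 1 a + (χ - ε • bar χ) := by
  classical
  have hpg : ∀ g, p.coeff g + ε * p.coeff g⁻¹ = 0 := by
    intro g
    have h := congrArg (fun x : MonoidAlgebra ℤ Γ => x.coeff g) hp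
    simp only [MonoidAlgebra.coeff_add, Finsupp.add_apply, coeff_zs, coeff_bar] at h
    exact h
  have hinv : ∀ g : Γ, g⁻¹ = g → g = 1 := by
    intro g hg
    apply htf g
    nth_rewrite 1 [← hg]
    exact inv_mul_cancel g
  let f : Γ → ℤ := fun g => if WellOrderingRel g g⁻¹ then p.coeff g else
    if g = 1 ∧ ε = -1 then p.coeff 1 / 2 else 0
  have hf0 : ∀ g, g ≠ 1 → p.coeff g = 0 → f g = 0 := by
    intro g hg h
    simp only [f]
    split_ifs with h1 h2
    · exact h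
    · exact absurd h2.1 hg
    · rfl
  have hfin : (Function.support f).Finite := by
    refine ((insert 1 p.coeff.support).finite_toSet).subset fun g hg => ?_
    rw [Finset.mem_coe, Finset.mem_insert]
    by_contra h
    push Not at h
    exact hg (hf0 g h.1 (Finsupp.notMem_support_iff.1 h.2))
  let χ : MonoidAlgebra ℤ Γ := MonoidAlgebra.ofCoeff (Finsupp.ofSupportFinite f hfin)
  have hχ : ∀ g, χ.coeff g = f g := fun g => rfl
  have hirr : ¬ WellOrderingRel (1 : Γ) (1 : Γ)⁻¹ := by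
    rw [inv_one]
    exact irrefl (r := WellOrderingRel) (1 : Γ)
  refine ⟨if ε = 1 then 0 else p.coeff 1 % 2, χ, ?_, ?_, ?_⟩
  · split_ifs
    · left; rfl
    · omega
  · intro h; rw [if_pos h]
  · ext g
    have h1 : (MonoidAlgebra.single (1 : Γ) (if ε = 1 then 0 else p.coeff 1 % 2)
        + (χ - ε • bar χ)).coeff g
        = (if (1 : Γ) = g then (if ε = 1 then 0 else p.coeff 1 % 2) else 0)
          + (f g - ε * f g⁻¹) := by
      rw [MonoidAlgebra.coeff_add, Finsupp.add_apply, MonoidAlgebra.coeff_sub, Finsupp.sub_apply,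
        coeff_zs, coeff_bar, hχ, hχ, MonoidAlgebra.coeff_single, Finsupp.single_apply]
    rw [h1]
    by_cases hg : g = 1
    · subst hg
      rw [if_pos rfl]
      have h2 := hpg 1
      rw [inv_one] at h2 hirr ⊢
      rcases hε with rfl | rfl
      · have h3 : f 1 = 0 := by
          simp only [f]
          rw [inv_one, if_neg hirr, if_neg (by rintro ⟨_, h⟩; norm_num at h)]
        rw [h3, if_pos rfl]
        omega
      · have h3 : f 1 = p.coeff 1 / 2 := by
          simp only [f]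
          rw [inv_one, if_neg hirr, if_pos ⟨trivial, trivial⟩]
        rw [h3, if_neg (by norm_num)]
        omega
    · rw [if_neg (Ne.symm hg), zero_add]
      have hg' : g⁻¹ ≠ 1 := fun h => hg (inv_eq_one.1 h)
      rcases trichotomous_of WellOrderingRel g g⁻¹ with h | h | h
      · have h2 : ¬ WellOrderingRel g⁻¹ g := fun h' => asymm h h'
        have h3 : f g = p.coeff g := if_pos h
        have h4 : f g⁻¹ = 0 := by
          simp only [f]
          rw [inv_inv, if_neg h2, if_neg (fun h' => hg' h'.1)]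
        rw [h3, h4]; ring
      · exact absurd (hinv g h.symm) hg
      · have h2 : ¬ WellOrderingRel g g⁻¹ := fun h' => asymm h h'
        have h3 : f g = 0 := by
          simp only [f]
          rw [if_neg h2, if_neg (fun h' => hg h'.1)]
        have h4 : f g⁻¹ = p.coeff g⁻¹ := by
          simp only [f]
          rw [inv_inv, if_pos h]
        rw [h3, h4]
        have := hpg g
        linarith

/-- sums of hyperbolic and Arf planes -/
noncomputable def pf (a b : μ → ℤ) : Matrix (μ ⊕ μ) (μ ⊕ μ) (MonoidAlgebra ℤ Γ) :=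
  fromBlocks (diagonal fun k => MonoidAlgebra.single 1 (a k)) 1 0
    (diagonal fun k => MonoidAlgebra.single 1 (b k))

/-- a nonsingular plane -/
theorem plane (htf : ∀ g : Γ, g * g = 1 → g = 1) {ε : ℤ}
    (hε : ε = 1 ∨ ε = -1) (ψ : Matrix (Unit ⊕ Unit) (Unit ⊕ Unit) (MonoidAlgebra ℤ Γ))
    (g : Γ) (s : ℤ) (hs : s * s = 1)
    (h1 : lam ε ψ (Sum.inl ()) (Sum.inl ()) = 0) (h2 : lam ε ψ (Sum.inr ()) (Sum.inr ()) = 0)
    (h3 : lam ε ψ (Sum.inl ()) (Sum.inr ()) = MonoidAlgebra.single g s) :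
    ∃ a b : Unit → ℤ, (∀ k, (a k = 0 ∨ a k = 1) ∧ (b k = 0 ∨ b k = 1)) ∧
      (ε = 1 → ∀ k, a k = 0 ∧ b k = 0) ∧ Iso ε ψ (pf a b) := by
  -- the unit
  have hsu : s = 1 ∨ s = -1 := by
    have : IsUnit s := IsUnit.of_mul_eq_one s hs
    exact Int.isUnit_iff.1 this
  let u : (MonoidAlgebra ℤ Γ)ˣ :=
    { val := MonoidAlgebra.single g⁻¹ s
      inv := MonoidAlgebra.single g s
      val_inv := by
        rw [MonoidAlgebra.single_mul_single, inv_mul_cancel, hs, MonoidAlgebra.one_def]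
      inv_val := by
        rw [MonoidAlgebra.single_mul_single, mul_inv_cancel, hs, MonoidAlgebra.one_def] }
  have huT : u ∈ TU Γ := by
    rcases hsu with h | h
    · exact ⟨g⁻¹, 1, by simp [u, h]⟩
    · exact ⟨g⁻¹, -1, by simp [u, h]⟩
  let E : (Matrix (Unit ⊕ Unit) (Unit ⊕ Unit) (MonoidAlgebra ℤ Γ))ˣ :=
    Units.map (dgm (Sum.inl ())) u
  have hE : TT (TU Γ) E := TT_of_mem _ _ (dgm_mem_HH _ _ u huT)
  have hEv : E.val = fromBlocks (Matrix.of fun _ _ => u.val) 0 0 1 := by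
    ext1 i j
    rcases i with ⟨⟩ | ⟨⟩ <;> rcases j with ⟨⟩ | ⟨⟩
    · change (Matrix.diagonal (Function.update 1 (Sum.inl ()) u.val)) (Sum.inl ()) (Sum.inl ()) = _
      rw [Matrix.diagonal_apply_eq, Function.update_self]
      rfl
    · change (Matrix.diagonal (Function.update 1 (Sum.inl ()) u.val)) (Sum.inl ()) (Sum.inr ()) = _
      rw [Matrix.diagonal_apply_ne _ Sum.inl_ne_inr]
      rfl
    · change (Matrix.diagonal (Function.update 1 (Sum.inl ()) u.val)) (Sum.inr ()) (Sum.inl ()) = _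
      rw [Matrix.diagonal_apply_ne _ Sum.inr_ne_inl]
      rfl
    · change (Matrix.diagonal (Function.update 1 (Sum.inl ()) u.val)) (Sum.inr ()) (Sum.inr ()) = _
      rw [Matrix.diagonal_apply_eq, Function.update_of_ne Sum.inr_ne_inl]
      rfl
  set φ := E.val * ψ * adj E.val with hφ
  have hlφ : ∀ x y, lam ε φ x y = ∑ b, (∑ a, E.val x a * lam ε ψ a b) * bar (E.val y b) := by
    intro x y
    rw [hφ, lam_conj, Matrix.mul_apply]
    refine Finset.sum_congr rfl fun b _ => ?_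
    rw [Matrix.mul_apply]
    rfl
  have hll : E.val (Sum.inl ()) (Sum.inl ()) = u.val := by rw [hEv]; rfl
  have hlr : E.val (Sum.inl ()) (Sum.inr ()) = 0 := by rw [hEv]; rfl
  have hrl : E.val (Sum.inr ()) (Sum.inl ()) = 0 := by rw [hEv]; rfl
  have hrr : E.val (Sum.inr ()) (Sum.inr ()) = 1 := by
    rw [hEv]
    exact Matrix.one_apply_eq ()
  have k1 : lam ε φ (Sum.inl ()) (Sum.inl ()) = 0 := by
    rw [hlφ]
    simp [Fintype.sum_sum_type, hll, hlr, h1]
  have k2 : lam ε φ (Sum.inr ()) (Sum.inr ()) = 0 := by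
    rw [hlφ]
    simp [Fintype.sum_sum_type, hrl, hrr, h2]
  have k3 : lam ε φ (Sum.inl ()) (Sum.inr ()) = 1 := by
    rw [hlφ]
    simp only [Fintype.sum_sum_type, Finset.univ_unique, Finset.sum_singleton, PUnit.default_eq_unit,
      hll, hlr, hrl, hrr, zero_mul, add_zero, bar_zero, mul_zero, zero_add, bar_one, mul_one]
    rw [h3]
    exact u.val_inv
  obtain ⟨a, χ1, a1, a2, a3⟩ := skew_red htf hε (φ (Sum.inl ()) (Sum.inl ())) k1
  obtain ⟨b, χ2, b1, b2, b3⟩ := skew_red htf hε (φ (Sum.inr ()) (Sum.inr ())) k2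
  refine ⟨fun _ => a, fun _ => b, fun _ => ⟨a1, b1⟩, fun h _ => ⟨a2 h, b2 h⟩, ?_⟩
  refine ⟨E, fromBlocks (Matrix.of fun _ _ => χ1) 0
    (Matrix.of fun _ _ => φ (Sum.inr ()) (Sum.inl ())) (Matrix.of fun _ _ => χ2), hE, ?_⟩
  rw [← hφ]
  ext1 i j
  rcases i with ⟨⟩ | ⟨⟩ <;> rcases j with ⟨⟩ | ⟨⟩
  · rw [a3]
    rfl
  · change φ (Sum.inl ()) (Sum.inr ()) = (1 : Matrix Unit Unit (MonoidAlgebra ℤ Γ)) () ()
      + (0 - ε • bar (φ (Sum.inr ()) (Sum.inl ())))
    rw [Matrix.one_apply_eq, ← k3, lam_apply]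
    abel
  · change φ (Sum.inr ()) (Sum.inl ()) = 0
      + (φ (Sum.inr ()) (Sum.inl ()) - ε • bar (0 : MonoidAlgebra ℤ Γ))
    rw [bar_zero, smul_zero, sub_zero, zero_add]
  · rw [b3]
    rfl

/-- the estimate for one row -/
theorem row_est {ν : Type} [Fintype ν] [DecidableEq ν] (X Y : ν → MonoidAlgebra ℤ Γ) (l₀ : ν)
    (g : Γ) (s : ℤ) (hs : s * s = 1) (m : ℤ)
    (hX : m + ∑ l, (l1 (X l) : ℤ) ≤ 2 * (s * (X l₀).coeff g)) (hY : ∑ l, (l1 (Y l) : ℤ) ≤ m) :
    ∑ l, (l1 (X l - Y l) : ℤ) ≤ 2 * (s * (X l₀ - Y l₀).coeff g) := by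
  have hsu : s = 1 ∨ s = -1 := Int.isUnit_iff.1 (IsUnit.of_mul_eq_one s hs)
  rw [← Finset.add_sum_erase _ _ (Finset.mem_univ l₀)] at hX hY ⊢
  have h1 : ∀ l ∈ Finset.univ.erase l₀, (l1 (X l - Y l) : ℤ) ≤ l1 (X l) + l1 (Y l) := by
    intro l _
    have e1 := l1_add_le (X l) (-(Y l))
    rw [l1_neg, ← sub_eq_add_neg] at e1
    exact_mod_cast e1
  have h2 := Finset.sum_le_sum h1
  rw [Finset.sum_add_distrib] at h2
  have h0X : (0 : ℤ) ≤ ∑ l ∈ Finset.univ.erase l₀, (l1 (X l) : ℤ) :=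
    Finset.sum_nonneg fun _ _ => Nat.cast_nonneg _
  have h0Y : (0 : ℤ) ≤ ∑ l ∈ Finset.univ.erase l₀, (l1 (Y l) : ℤ) :=
    Finset.sum_nonneg fun _ _ => Nat.cast_nonneg _
  -- the entry at `l₀`
  set x := MonoidAlgebra.single g⁻¹ s * X l₀ with hx
  set y := MonoidAlgebra.single g⁻¹ s * Y l₀ with hy
  have hxc : x.coeff 1 = s * (X l₀).coeff g := by
    rw [hx, MonoidAlgebra.coeff_single_mul_apply, inv_inv, mul_one]
  have hyc : y.coeff 1 = s * (Y l₀).coeff g := by
    rw [hy, MonoidAlgebra.coeff_single_mul_apply, inv_inv, mul_one]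
  have hxl : l1 x = l1 (X l₀) := by rw [hx, l1_single_mul' _ _ hs]
  have hyl : l1 y = l1 (Y l₀) := by rw [hy, l1_single_mul' _ _ hs]
  have hxy : l1 (x - y) = l1 (X l₀ - Y l₀) := by
    rw [hx, hy, ← mul_sub, l1_single_mul' _ _ hs]
  have h3 : |y.coeff 1| ≤ x.coeff 1 := by
    have e1 := coeff_le_l1 y 1
    have e2 := coeff_le_l1 x 1
    have e3 := le_abs_self (x.coeff 1)
    rw [hyl] at e1
    rw [hxl] at e2
    rw [← hxc] at hX
    linarith
  have h4 := l1_sub_le x y h3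
  rw [hxy, hxl, hyl, hyc] at h4
  have h5 : (X l₀ - Y l₀).coeff g = (X l₀).coeff g - (Y l₀).coeff g := by simp
  rw [h5, mul_sub]
  have h6 := le_abs_self (s * (Y l₀).coeff g)
  linarith

end Pool.Agent.R719.LF
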